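import Pool.Agent.K1H19.Kom2.Stm

/-!
# The choice of the minimal level
-/

set_option autoImplicit false

namespace K19Kom2.H33

open K19Kom

theorem hp_ge (p : ℕ) : 100 * ((p : ℝ) + 1) ≤ hp p := by
  unfold hp
  have h1 : (1 : ℝ) ≤ Real.sqrt (2 ^ p) := by
    rw [Real.one_le_sqrt]
    exact one_le_pow₀ (by norm_num)
  have h2 : (0 : ℝ) ≤ p := Nat.cast_nonneg p
  nlinarith

theorem hp_sqrt (p : ℕ) : Real.sqrt (2 ^ p) ≤ hp p := by
  unfold hp
  have h1 : (0 : ℝ) ≤ Real.sqrt (2 ^ p) := Real.sqrt_nonneg _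
  have h2 : (0 : ℝ) ≤ p := Nat.cast_nonneg p
  nlinarith [mul_nonneg h2 h1]

theorem t_FIT : K19Kom2.S_FIT := by
  refine ⟨1 / 320000, by norm_num, fun t ht => ?_⟩
  have hL : 0 ≤ Real.log t := Real.log_nonneg ht
  set L : ℝ := 1 + Real.log t with hLdef
  have hL1 : 1 ≤ L := by linarith
  have hlam1 : 1 ≤ lamt t := by
    unfold lamt
    exact Real.one_le_rpow hL1 (by norm_num)
  have hlam2 : lamt t ^ 2 = L ^ 3 := by
    unfold lamt
    rw [← hLdef, ← Real.rpow_natCast, ← Real.rpow_mul (by linarith), ← Real.rpow_natCast]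
    norm_num
  have ht0 : 0 ≤ t := by linarith
  have hs0 : 0 ≤ Real.sqrt t := Real.sqrt_nonneg t
  have hex : ∃ q : ℕ, Real.sqrt t < hp (q + 1) * lamt t := by
    obtain ⟨q, hq⟩ := exists_nat_ge (Real.sqrt t)
    refine ⟨q, ?_⟩
    have h1 := hp_ge (q + 1)
    push_cast at h1
    have h2 : (0 : ℝ) ≤ q := Nat.cast_nonneg q
    nlinarith
  classical
  set p0 : ℕ := Nat.find hex with hp0
  have hP := Nat.find_spec hex
  rw [← hp0] at hP
  have hmin : p0 = 0 ∨ hp p0 * lamt t ≤ Real.sqrt t := by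
    rcases Nat.eq_zero_or_pos p0 with h | h
    · exact Or.inl h
    · right
      have h1 := Nat.find_min hex (m := p0 - 1) (by omega)
      rw [Nat.sub_add_cancel h] at h1
      exact not_lt.1 h1
  refine ⟨p0, ⟨hmin, hP⟩, ?_⟩
  have hp4 : (p0 : ℝ) + 2 ≤ 4 * L := by
    rcases hmin with h | h
    · rw [h]; push_cast; linarith
    · have h1 : Real.sqrt (2 ^ p0) ≤ Real.sqrt t := by
        have h2 := hp_sqrt p0
        have h3 : 0 ≤ hp p0 := (Real.sqrt_nonneg _).trans h2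
        nlinarith
      have h2 : (2 : ℝ) ^ p0 ≤ t := (Real.sqrt_le_sqrt_iff ht0).1 h1
      have h3 : (p0 : ℝ) * Real.log 2 ≤ Real.log t := by
        rw [← Real.log_pow]
        exact Real.log_le_log (by positivity) h2
      have h4 := Real.log_two_gt_d9
      have h5 : (0 : ℝ) ≤ p0 := Nat.cast_nonneg p0
      nlinarith
  have h1 : t < (hp (p0 + 1) * lamt t) ^ 2 := by
    have h2 : Real.sqrt t ^ 2 = t := Real.sq_sqrt ht0
    have h3 := pow_lt_pow_left₀ hP hs0 two_ne_zero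
    rwa [h2] at h3
  have h2 : (hp (p0 + 1) * lamt t) ^ 2 = 20000 * ((p0 : ℝ) + 2) ^ 2 * 2 ^ p0 * L ^ 3 := by
    rw [mul_pow, hlam2]
    unfold hp
    have h3 : Real.sqrt (2 ^ (p0 + 1)) ^ 2 = 2 * 2 ^ p0 := by
      rw [Real.sq_sqrt (by positivity), pow_succ]; ring
    rw [mul_pow, h3]
    push_cast
    ring
  have h3 : ((p0 : ℝ) + 2) ^ 2 ≤ (4 * L) ^ 2 :=
    pow_le_pow_left₀ (by positivity) hp4 2
  have h4 : t ≤ 320000 * L ^ 5 * 2 ^ p0 := by
    rw [h2] at h1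
    refine h1.le.trans ?_
    calc 20000 * ((p0 : ℝ) + 2) ^ 2 * 2 ^ p0 * L ^ 3 ≤ 20000 * (4 * L) ^ 2 * 2 ^ p0 * L ^ 3 := by
          gcongr
      _ = _ := by ring
  have hL5 : 0 < L ^ 5 := by positivity
  rw [one_div, inv_mul_le_iff₀ (by norm_num), div_le_iff₀ hL5]
  linarith

end K19Kom2.H33
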