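import Pool.Agent.K1H19.Kom2.Stm
import Pool.Agent.K1H96.Kom.Kom_WHIT

/-!
# Whitney levels with a minimal level
-/

set_option autoImplicit false

namespace K19Kom2.H33

open K19Kom

theorem lvl_ge {l T q : ℕ} : q + 1 ≤ lvl l T ↔ H96.Pc l T (q + 1) := by
  constructor
  · intro h
    exact H96.Pc_mono h (H96.lvl_spec (by omega))
  · intro h
    rw [H96.lvl_eq]
    exact Nat.le_findGreatest (P := fun p => H96.Pc l T p) (H96.Pc_le h).le h

theorem t_WHIT2 : K19Kom2.S_WHIT2 := by
  intro p0 k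
  obtain ⟨w1, w2, w3⟩ := K19Kom.t_WHIT
  refine ⟨fun T hT h => ?_, fun T hT => ?_, fun T p hp => ?_⟩
  · have h1 : lvl2 p0 (k * 2 ^ p0) T = lvl (k * 2 ^ p0) T := by
      unfold lvl2 at h ⊢
      rcases max_choice p0 (lvl (k * 2 ^ p0) T) with h2 | h2
      · rw [h2] at h; exact absurd h (lt_irrefl _)
      · exact h2
    rw [h1]
    exact w1 _ T hT
  · have h1 := w2 _ T hT
    have h2 : 2 ^ lvl (k * 2 ^ p0) T ≤ 2 ^ lvl2 p0 (k * 2 ^ p0) T :=
      Nat.pow_le_pow_right (by norm_num) (le_max_right _ _)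
    omega
  · rcases lt_trichotomy p p0 with h | h | h
    · have h1 : ∀ T, lvl2 p0 (k * 2 ^ p0) T ≠ p := by
        intro T h2
        have : p0 ≤ lvl2 p0 (k * 2 ^ p0) T := le_max_left _ _
        omega
      constructor
      · rintro ⟨-, h2⟩; exact absurd h2 (h1 _)
      · rintro ⟨-, h2⟩; exact absurd h2 (h1 _)
    · subst h
      have h1 : ∀ T, lvl2 p (k * 2 ^ p) T = p ↔ ¬ H96.Pc (k * 2 ^ p) T (p + 1) := by
        intro T
        rw [← lvl_ge]
        unfold lvl2
        constructor
        · intro h2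
          have : lvl (k * 2 ^ p) T ≤ max p (lvl (k * 2 ^ p) T) := le_max_right _ _
          omega
        · intro h2
          exact max_eq_left (by omega)
      have h' : ¬ 2 ^ (p + 1) ∣ T + 1 := fun h2 => hp ((pow_dvd_pow 2 (Nat.le_succ p)).trans h2)
      have hne : T + 1 ≠ k * 2 ^ p := fun h2 => hp (h2 ▸ Dvd.intro_left k rfl)
      rw [h1, h1, H96.Pc_step h']
      constructor
      · rintro ⟨h2, h3⟩; exact ⟨by omega, h3⟩
      · rintro ⟨h2, h3⟩; exact ⟨by omega, h3⟩
    · have h1 : ∀ T, lvl2 p0 (k * 2 ^ p0) T = p ↔ lvl (k * 2 ^ p0) T = p := by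
        intro T
        unfold lvl2
        constructor
        · intro h2
          rcases max_choice p0 (lvl (k * 2 ^ p0) T) with h3 | h3
          · omega
          · omega
        · intro h2
          rw [h2]
          exact max_eq_right h.le
      rw [h1, h1]
      exact w3 _ T p hp

end K19Kom2.H33
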